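import Pool.Agent.H95.SqzC

set_option autoImplicit false

open Pool.Agent.H95.Sqz

theorem Pool.Agent.Results.MP_7519fb_mp.Continuous.result :
    ∀ n : ℕ, ContinuousOn (G (n := n)) {γ : Mat n | IsCov γ} :=
  contG
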